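import Pool.Agent.helper55.ZI.Spec2

set_option autoImplicit false

namespace Pool.Agent.helper69.ZI

open Pool.Agent.ZI

universe u

theorem SIM : SIM_stmt.{u} := by
  intro R _ f hf hf0
  have hI : Ideal.span {1 - f} ≠ (⊤ : Ideal R) := by
    intro h
    have h1 : (1 : R) ∈ Ideal.span {1 - f} := by
      rw [h]
      exact Submodule.mem_top
    obtain ⟨a, ha⟩ := Ideal.mem_span_singleton'.1 h1
    apply hf0
    calc f = 1 * f := (one_mul f).symm
      _ = a * (1 - f) * f := by rw [ha]
      _ = a * (f - f * f) := by rw [mul_assoc, sub_mul, one_mul]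
      _ = 0 := by rw [hf, sub_self, mul_zero]
  obtain ⟨M, hM, hle⟩ := Ideal.exists_le_maximal _ hI
  have h1M : (1 : R) ∉ M := fun h => hM.ne_top ((Ideal.eq_top_iff_one M).2 h)
  have hfM : 1 - f ∈ M := hle (Ideal.subset_span rfl)
  have hs : IsSimpleModule R (R ⧸ (M : Submodule R R)) := isSimpleModule_iff_isCoatom.2 hM.out
  refine ⟨R ⧸ (M : Submodule R R), inferInstance, inferInstance, hs,
    Submodule.Quotient.mk (1 : R), ?_, ?_⟩
  · intro h
    exact h1M ((Submodule.Quotient.mk_eq_zero _).1 h)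
  · rw [← Submodule.Quotient.mk_smul, smul_eq_mul, mul_one, Submodule.Quotient.eq]
    have h2 := neg_mem hfM
    rwa [neg_sub] at h2

end Pool.Agent.helper69.ZI
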